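import Pool.Agent.KS6_1.RF.FittingExt

set_option autoImplicit false

namespace Pool.Agent.Results.MP_ddb4d7_al.ContinuumMany

open Subgroup
open Pool.Agent.Results.MP_ddb4d7_al.CentralFrattini (IsFittingClass IsMetanilpotent)
open Pool.Agent.KS6_1.FischerExt Pool.Agent.KS6_1.FittingExt

/-- Let `p` be a prime, `q ≠ p` an odd prime and `m ≥ 1`. There is an injective family of Fitting
classes of finite soluble groups, indexed by the `2 ^ ℵ₀` subsets of `ℕ`, such that for all `k > m`
with `q ∣ p ^ k - 1` (for example the multiples `k > m` of `q - 1`) there are one metanilpotent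
group `G` of order `q p ^ (3k)` and one subgroup `Z`, of order `p ^ (k - m)`, of the intersection of
the centre and the Frattini subgroup of `G`, such that `G / Z` belongs to ALL classes of the family
and `G` to NONE of them. -/
theorem result (p q : ℕ) (hp : p.Prime) (hq : q.Prime) (hq2 : q ≠ 2) (hpq : p ≠ q) :
    (∀ j : ℕ, q ∣ p ^ ((q - 1) * j) - 1) ∧
    ∀ m : ℕ, 1 ≤ m → ∃ Y : Set ℕ → ((G : Type) → [Group G] → Prop), Function.Injective Y ∧
      (∀ S, IsFittingClass (Y S)) ∧
      ∀ k : ℕ, m < k → q ∣ p ^ k - 1 →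
        ∃ (G : Type) (_ : Group G) (_ : Finite G) (Z : Subgroup G) (_ : Z.Normal),
          Nat.card G = q * p ^ (3 * k) ∧ Nat.card Z = p ^ (k - m) ∧
          IsMetanilpotent G ∧ Z ≤ Subgroup.center G ⊓ frattini G ∧
          ∀ S, Y S (G ⧸ Z) ∧ ¬ Y S G := by
  obtain ⟨h0, hall⟩ := Pool.Agent.Results.MP_ddb4d7_al.AllPrimes.result p q hp hq hq2 hpq
  refine ⟨h0, fun m hm => ?_⟩
  obtain ⟨X', hX', hk⟩ := hall m hm
  set ρ : Set ℕ := {p, q} with hρdef
  have hX : IsFittingClass (Res ρ X') := res_fitting hX' ρ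
  have hρ : ∀ (G : Type) [Group G], Res ρ X' G → PG ρ G := fun G _ h => h.2
  have hinf : ({p : ℕ | p.Prime} \ ρ).Infinite :=
    Nat.infinite_setOfPred_prime.sdiff (by simp [ρ])
  let e : ℕ ↪ ({p : ℕ | p.Prime} \ ρ : Set ℕ) := hinf.natEmbedding
  have hdis : ∀ S : Set ℕ, Disjoint ρ ((fun n => (e n : ℕ)) '' S) := by
    intro S
    rw [Set.disjoint_left]
    rintro p hp ⟨n, -, rfl⟩
    exact (e n).2.2 hp
  refine ⟨fun S => Ext ((fun n => (e n : ℕ)) '' S) (Res ρ X'), ?_,
    fun S => ext_fitting hX hρ (hdis S), ?_⟩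
  · intro S T hST
    have key : ∀ (S : Set ℕ) (n : ℕ), Ext ((fun n => (e n : ℕ)) '' S) (Res ρ X')
        (Multiplicative (ZMod (e n : ℕ))) ↔ n ∈ S := by
      intro S n
      rw [cyclic_mem hX hρ _ (e n).2.1 (e n).2.2]
      constructor
      · rintro ⟨m, hm, h⟩
        have : m = n := e.injective (Subtype.ext h)
        rwa [← this]
      · intro h
        exact ⟨n, h, rfl⟩
    ext n
    rw [← key S n, ← key T n]
    have h2 := congrFun (congrFun hST (Multiplicative (ZMod (e n : ℕ)))) inferInstance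
    simp only at h2
    rw [h2]
  · intro k hmk hd
    obtain ⟨G, _, hfin, Z, hZ, cG, cZ, hmeta, hZle, x1, hnot⟩ := hk k hmk hd
    have hG : PG ρ G := by
      intro r hr hrd
      rw [cG] at hrd
      rcases (Nat.Prime.dvd_mul hr).1 hrd with h | h
      · simp [ρ, (Nat.prime_dvd_prime_iff_eq hr hq).1 h]
      · simp [ρ, (Nat.prime_dvd_prime_iff_eq hr hp).1 (hr.dvd_of_dvd_pow h)]
    refine ⟨G, inferInstance, hfin, Z, hZ, cG, cZ, hmeta, hZle, fun S => ⟨?_, ?_⟩⟩
    · have hq1 : PG ρ (G ⧸ Z) := hG.of_dvd (Subgroup.card_quotient_dvd_card Z)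
      refine ⟨inferInstance, hX'.soluble _ x1, ⊥, inferInstance, ?_, ?_⟩
      · intro r hr hrd
        rw [Subgroup.card_bot] at hrd
        exact absurd (Nat.dvd_one.1 hrd) hr.one_lt.ne'
      · exact hX.iso _ _ ⟨QuotientGroup.quotientBot.symm⟩ ⟨x1, hq1⟩
    · rintro ⟨-, -, N, hN, h1, h2⟩
      have hN1 : N = ⊥ := by
        have hc : Nat.card N = 1 := by
          by_contra hne
          obtain ⟨r, hr, hrd⟩ := Nat.exists_prime_and_dvd hne
          exact Set.disjoint_left.1 (hdis S)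
            (hG r hr (hrd.trans (Subgroup.card_subgroup_dvd_card N))) (h1 r hr hrd)
        exact Subgroup.card_eq_one.1 hc
      subst hN1
      exact hnot (hX'.iso _ _ ⟨QuotientGroup.quotientBot⟩ h2.1)

end Pool.Agent.Results.MP_ddb4d7_al.ContinuumMany
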